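import Pool.Agent.Lib.MP_1be6c9_co.Fc.Main

/-!
Balancing unit vectors under the parity condition.
-/

namespace Pool.Agent.Results.MP_1be6c9_co.Balancing

/-- For every `d ≥ 1`, every `n` with `n ≢ d (mod 2)` and all unit vectors `v 0, …, v (n - 1)` of
Euclidean `d`-space some signed sum has norm at most `√(d - 1)`. -/
theorem result : ∀ d n : ℕ, 1 ≤ d → n % 2 ≠ d % 2 → ∀ v : Fin n → EuclideanSpace ℝ (Fin d),
    (∀ i, ‖v i‖ = 1) →
      ∃ η : Fin n → ℝ, (∀ i, η i = 1 ∨ η i = -1) ∧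
        ‖∑ i, η i • v i‖ ≤ Real.sqrt ((d : ℝ) - 1) := by
  intro d n hd hn v hv
  obtain ⟨η, hη, hle⟩ := Pool.Agent.Lib.MP_1be6c9_co.Fc.balance (κ := Fin n)
    (by rw [Fintype.card_fin, finrank_euclideanSpace_fin]; exact hn) v hv
  rw [finrank_euclideanSpace_fin] at hle
  exact ⟨η, hη, Real.le_sqrt_of_sq_le hle⟩

end Pool.Agent.Results.MP_1be6c9_co.Balancing
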